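import Mathlib
import Pool.Agent.Lib.H72V.R7

set_option autoImplicit false

namespace Pool.Agent.Results.MP_d70c8b_an.Chirality

open H72R H72V

/-- Let `φ` be a continuous real flow on the unit sphere `S3` of `ℝ⁴` and let `R` be a homeomorphism
of `S3` which is isotopic to the point reflection `(x₀, x₁, x₂, x₃) ↦ (x₀, -x₁, -x₂, -x₃)`.

(1) If `R (φ t x) = φ t (R x)` for all `x` and `t`, or `R (φ t x) = φ (-t) (R x)` for all `x` and
`t`, then `φ` has a rest point.

(2) If `R` maps orbits of `φ` to orbits and preserves their direction, or maps orbits to orbits and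
reverses their direction, then some point is a rest point or a periodic point, and `φ` is not
minimal. -/
theorem result (φ : Flow ℝ S3) (R : S3 → S3) (hR : Mirror R) :
    (Preserves φ R ∨ ReversesTime φ R → HasRestPoint φ) ∧
    (PreservesOrbits φ R ∨ ReversesOrbits φ R → HasPeriodicPoint φ ∧ ¬ MinimalFlow φ) :=
  chirality φ R hR.isotopic

end Pool.Agent.Results.MP_d70c8b_an.Chirality
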