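import Mathlib
import Pool.Agent.Lib.H72O.F5

set_option autoImplicit false

namespace Pool.Agent.Results.MP_d70c8b_an.LinearSymmetries

open H72R

/-- `A` is orthogonal and the map `R = h A h⁻¹` of the sphere maps every orbit of the flow into an
orbit. -/
def IsSymmetry (φ : Flow ℝ S3) (h : S3 ≃ₜ S3) (A : Matrix (Fin 4) (Fin 4) ℝ) : Prop :=
  A.transpose * A = 1 ∧ ∃ R : S3 → S3, (∀ x i, (h.symm (R (h x))).1 i = ∑ j, A i j * x.1 j) ∧
    ∀ x (t : ℝ), ∃ s : ℝ, R (φ t x) = φ s (R x)

/-- Let `φ` be a minimal continuous real flow on the unit sphere `S3` of `ℝ⁴` and `h` a homeomorphism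
of `S3`. Then only finitely many orthogonal matrices `A` are such that `R = h A h⁻¹` maps every orbit
of `φ` into an orbit, and each of them has finite order. -/
theorem result (φ : Flow ℝ S3) (hφ : MinimalFlow φ) (h : S3 ≃ₜ S3) :
    {A : Matrix (Fin 4) (Fin 4) ℝ | IsSymmetry φ h A}.Finite ∧
      ∀ A, IsSymmetry φ h A → ∃ k > 0, A ^ k = 1 :=
  H72O.main' φ hφ h

end Pool.Agent.Results.MP_d70c8b_an.LinearSymmetries
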