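import Mathlib
import Pool.Agent.Lib.H72R.N

set_option autoImplicit false

namespace Pool.Agent.Results.MP_d70c8b_an.Reversible

open H72R

/-- Let `φ` be a continuous real flow on the unit sphere `S3` of `ℝ⁴`, let `R : S3 → S3` be a map,
and suppose that for some odd `m` the iterate `R^[m]` is conjugate, by a homeomorphism of `S3`, to
the linear isometry with orthogonal matrix `A`.

(1) Let `A² = 1` and `trace A ≠ 0` (so `A` is `1`, `-1`, a reflection or a point reflection; of the
orthogonal involutions only the half-turns about great circles are left out). If `R` maps orbits of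
`φ` to orbits and reverses their direction, then some point is a rest point or a periodic point
(`φ t x = x` for some `t > 0`) and `φ` is not minimal. If `R (φ t x) = φ (-t) (R x)` for all `x` and
`t`, then `φ` has a rest point.

(2) Let `φ` be minimal. If `R` maps orbits to orbits and preserves their direction, then
`det A = 1`, and `A = 1` or `A` has no fixed vector except `0`. If `R` maps orbits to orbits and
reverses their direction, then `det A = 1`, and either `A` is a half-turn (`A² = 1` and
`trace A = 0`) or `A²` has no fixed vector except `0`. -/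
theorem result (φ : Flow ℝ S3) (R : S3 → S3) (m : ℕ) (hm : Odd m) (A : Matrix (Fin 4) (Fin 4) ℝ)
    (hA : A.transpose * A = 1) (hR : ConjMat (R^[m]) A) :
    (A * A = 1 → A.trace ≠ 0 →
      (ReversesOrbits φ R → HasPeriodicPoint φ ∧ ¬ MinimalFlow φ) ∧
      (ReversesTime φ R → HasRestPoint φ)) ∧
    (MinimalFlow φ →
      (PreservesOrbits φ R → A.det = 1 ∧ (A = 1 ∨ ∀ v, v ≠ 0 → A.mulVec v ≠ v)) ∧
      (ReversesOrbits φ R → A.det = 1 ∧
        ((A * A = 1 ∧ A.trace = 0) ∨ ∀ v, v ≠ 0 → (A * A).mulVec v ≠ v))) :=
  main φ R m hm A hA hR

end Pool.Agent.Results.MP_d70c8b_an.Reversible
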